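import Mathlib
import Pool.Agent.V8H23.CloseET

/-!
# MP_12a1af_nt: close representations and popular differences, finite unions of almost Sidon sets

`rep A n` is the number `r_A(n)` of ordered pairs of elements of `A` with sum `n`, `cnt A x` is the
number of elements of `A` below `x`, and `diff A N d` is the number of pairs of elements of `A` below
`N` with difference `d`.

Let `A` have at least `√(c x)` elements below `x`, for all large `x` (this follows from the
hypothesis of Q1, with `c = 1/2`, and from that of Q2), let `A` be covered by `m` sets `B i`, and let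
`ε > 0` and `M` be arbitrary.

1. There is `δ = δ(c, ε, m, M) > 0` such that, for all large `N`, one of the sets `B i` has
   `∑ diff (B i) N d ≥ δ N`, the sum being taken over the `M`-popular `d ≤ ε N` only, and
   `∑ r_{B i}(n) ^ 2 ≥ δ N`, the sum being taken only over the `n < N` which have two different
   representations `a + b = a' + b'` in `B i` with `0 < a' - a ≤ ε N`.
2. If the `r_{B i}` are bounded then at least `δ N` numbers `d ≤ ε N` are `M`-popular, and at least
   `δ N` numbers `n < N` have two such close representations.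
3. So Q1 and Q2 hold for finite unions of sets `B i` such that almost all `n` have no two close
   representations in `B i`, for instance if `r_{B i}(n) ≤ 3` for almost all `n` (almost Sidon sets);
   they also hold if, for some `M`, almost no `d` is `M`-popular in `B i`.
4. If `A ∩ [0, N)` is covered by `m` sets in which every `d > 0` is the difference of at most `g`
   pairs of elements below `N`, then `g m ^ 2 ≥ c' log N`. For Sidon sets, `g = 1`.

Erdős proved that an infinite Sidon set does not satisfy the hypothesis of Q2. His method counts pairs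
of elements which are close to each other; here it is used for a bounded number of scales just below
`N`, which gives a positive proportion.
-/

set_option autoImplicit false

namespace Pool.Agent.Results.MP_12a1af_nt.CloseRepresentations

open Finset Filter

/-- `r_A(n)`: the number of ordered pairs of elements of `A` with sum `n` -/
noncomputable def rep (A : Set ℕ) (n : ℕ) : ℕ :=
  {p : ℕ × ℕ | p.1 ∈ A ∧ p.2 ∈ A ∧ p.1 + p.2 = n}.ncard

/-- the number of elements of `A` below `x` -/
noncomputable def cnt (A : Set ℕ) (x : ℕ) : ℕ := (A ∩ Set.Iio x).ncard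

/-- `A` has at least `√(c x)` elements below `x`, for all large `x` -/
def Grow (A : Set ℕ) (c : ℝ) : Prop := ∀ᶠ x : ℕ in atTop, c * x ≤ (cnt A x : ℝ) ^ 2

/-- the number of pairs `a, a + d` of elements of `A` below `N` -/
noncomputable def diff (A : Set ℕ) (N d : ℕ) : ℕ := {a : ℕ | a ∈ A ∧ a + d ∈ A ∧ a + d < N}.ncard

/-- `0 < d ≤ y` and `d` is the difference of at least `M` pairs of elements of `A` below `N` -/
def Popular (A : Set ℕ) (M N : ℕ) (y : ℝ) (d : ℕ) : Prop := 0 < d ∧ (d : ℝ) ≤ y ∧ M ≤ diff A N d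

/-- `n` has two different representations `n = a + b = a' + b'` by elements of `A` with
`0 < a' - a ≤ y` (`a' ≠ b` means that `{a, b}` and `{a', b'}` are different) -/
def Close (A : Set ℕ) (y : ℝ) (n : ℕ) : Prop :=
  ∃ a ∈ A, ∃ b ∈ A, ∃ a' ∈ A, ∃ b' ∈ A, a + b = n ∧ a' + b' = n ∧ a < a' ∧ (a' : ℝ) ≤ a + y ∧ a' ≠ b

/-- the hypothesis of Q1 or that of Q2 (`a_n = Nat.nth (· ∈ A) (n - 1)`) -/
def Hyp (A : Set ℕ) : Prop := (∀ᶠ n : ℕ in atTop, 1 ≤ rep A n) ∨
  (A.Infinite ∧ ∃ C : ℝ, ∀ n : ℕ, 1 ≤ n → (Nat.nth (· ∈ A) (n - 1) : ℝ) ≤ C * (n : ℝ) ^ 2)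

open Classical in
theorem result :
    -- 0. the hypotheses of Q1 and of Q2
    (∀ A : Set ℕ, (∀ᶠ n : ℕ in atTop, 1 ≤ rep A n) → Grow A (1 / 2)) ∧
    (∀ (A : Set ℕ) (C : ℝ), A.Infinite →
      (∀ n : ℕ, 1 ≤ n → (Nat.nth (· ∈ A) (n - 1) : ℝ) ≤ C * (n : ℝ) ^ 2) →
      Grow A (1 / (4 * (|C| + 1)))) ∧
    -- 1. popular differences and close representations, for arbitrary representation functions
    (∀ (c ε : ℝ) (m M : ℕ), 0 < c → 0 < ε → ∃ δ : ℝ, 0 < δ ∧
      ∀ (A : Set ℕ) (B : Fin m → Set ℕ), Grow A c → A ⊆ ⋃ i, B i → ∀ᶠ N : ℕ in atTop, ∃ i,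
        δ * N ≤ ∑ d ∈ (range N).filter (Popular (B i) M N (ε * N)), (diff (B i) N d : ℝ) ∧
        δ * N ≤ ∑ n ∈ (range N).filter (Close (B i) (ε * N)), (rep (B i) n : ℝ) ^ 2) ∧
    -- 2. the same for bounded representation functions
    (∀ (c ε : ℝ) (m M K : ℕ), 0 < c → 0 < ε → ∃ δ : ℝ, 0 < δ ∧
      ∀ (A : Set ℕ) (B : Fin m → Set ℕ), Grow A c → A ⊆ ⋃ i, B i → (∀ i n, rep (B i) n ≤ K) →
      ∀ᶠ N : ℕ in atTop, ∃ i,
        δ * N ≤ (((range N).filter (Popular (B i) M N (ε * N))).card : ℝ) ∧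
        δ * N ≤ (((range N).filter (Close (B i) (ε * N))).card : ℝ)) ∧
    -- 3. the two questions for finite unions of sets with few popular differences, or few close
    -- representations, or which are almost Sidon sets
    (∀ (m : ℕ) (A : Set ℕ) (B : Fin m → Set ℕ), Hyp A → A = ⋃ i, B i →
      ((∃ (M : ℕ) (ε : ℝ), 0 < ε ∧ ∀ η : ℝ, 0 < η → ∃ᶠ N : ℕ in atTop, ∀ i,
          (((range N).filter (Popular (B i) M N (ε * N))).card : ℝ) ≤ η * N) ∨
        (∃ ε : ℝ, 0 < ε ∧ ∀ η : ℝ, 0 < η → ∃ᶠ N : ℕ in atTop, ∀ i,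
          (((range N).filter (Close (B i) (ε * N))).card : ℝ) ≤ η * N) ∨
        (∀ η : ℝ, 0 < η → ∃ᶠ N : ℕ in atTop, ∀ i,
          (((range N).filter (fun n => 4 ≤ rep (B i) n)).card : ℝ) ≤ η * N)) →
      ∀ K : ℕ, ∃ n, K < rep A n) ∧
    -- 4. coverings by sets with bounded multiplicities of the differences
    (∀ c : ℝ, 0 < c → ∃ c' : ℝ, 0 < c' ∧ ∀ A : Set ℕ, Grow A c →
      ∀ᶠ N : ℕ in atTop, ∀ (m g : ℕ) (B : Fin m → Set ℕ), 1 ≤ g → A ∩ Set.Iio N ⊆ ⋃ i, B i →
        (∀ i d, 0 < d → diff (B i) N d ≤ g) → c' * Real.log N ≤ g * (m : ℝ) ^ 2) := by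
  refine ⟨fun A h => Pool.Agent.V8H23.CloseET.grow_basis h, ?_, ?_, ?_, ?_, ?_⟩
  · intro A C hA h
    obtain ⟨c, _, rfl, h2⟩ := Pool.Agent.V8H23.CloseET.grow_quad hA h
    exact h2
  · intro c ε m M hc hε
    exact Pool.Agent.V8H23.CloseET.general c ε m M hc hε
  · intro c ε m M K hc hε
    exact Pool.Agent.V8H23.CloseET.bounded c ε m M K hc hε
  · intro m A B hA hAB h
    exact Pool.Agent.V8H23.CloseET.unbounded hA hAB h
  · intro c hc
    exact Pool.Agent.V8H23.CloseET.covering c hc

end Pool.Agent.Results.MP_12a1af_nt.CloseRepresentations
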