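import Mathlib
import Pool.Agent.V8H23.HoloET

/-!
# The Erdős–Turán problem (MP_12a1af_nt): holonomic (P-recursive) sequences

`rep A s` is the number `r_A(s)` of ordered pairs `(a, b) ∈ A × A` with `a + b = s`, and
`E x = exp (√(log x / log log x) / 200)`, a function which grows faster than any power of `log x`.

A sequence is P-recursive (holonomic) if it satisfies a linear recurrence the coefficients of which
are polynomials in the index, in other words if its generating function satisfies a linear
differential equation with polynomial coefficients.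

1. Let `A` be the set of the values of a strictly increasing P-recursive sequence of natural
   numbers. If `r_A(n) ≥ 1` for all large `n`, or if `a_n ≤ C n ^ 2`, then `r_A(s) ≥ E s` for
   infinitely many `s`.
2. The same for all sets which differ in finitely many elements from the union of the sets of the
   values of finitely many P-recursive sequences with polynomial growth.
3. More generally let `a_1, …, a_m` be P-recursive sequences with `c n ^ 2 ≤ a_i(n) + 1 ≤ C n ^ k`,
   and let `A` be a set such that for infinitely many `N` at least `√N / E N` elements `x ≤ N` of `A`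
   are within distance `E N` of the values of the sequences. Then `r_A(s) ≥ E s` for infinitely many
   `s`.

Method: the leading coefficients of a recurrence lower the growth exponent, so that a P-recursive
sequence of integers with polynomial growth satisfies a recurrence with constant coefficients; its
minimal polynomial is integral and its roots are roots of unity (Kronecker's theorem). Hence the
sequence is given by polynomials on residue classes, and the starting file `QuadraticCoverings`
applies.
-/

set_option autoImplicit false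

namespace Pool.Agent.Results.MP_12a1af_nt.HolonomicSequences

open Finset Filter Polynomial

/-- The number `r_A(s)` of ordered pairs `(a, b)` of elements of `A` with `a + b = s`. -/
noncomputable def rep (A : Set ℕ) (s : ℕ) : ℕ :=
  {p : ℕ × ℕ | p.1 ∈ A ∧ p.2 ∈ A ∧ p.1 + p.2 = s}.ncard

/-- `E x = exp (√(log x / log log x) / 200)`. -/
noncomputable def E (x : ℝ) : ℝ :=
  Real.exp (1 / 200 * Real.sqrt (Real.log x / Real.log (Real.log x)))

/-- The sequence `u` satisfies, from some index on, a linear recurrence the coefficients of which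
are complex polynomials in the index, not all zero. -/
def PRecursive (u : ℕ → ℕ) : Prop :=
  ∃ (d N : ℕ) (P : ℕ → ℂ[X]), (∃ i ≤ d, P i ≠ 0) ∧
    ∀ n, N ≤ n → ∑ i ∈ range (d + 1), (P i).eval (n : ℂ) * (u (n + i) : ℂ) = 0

/-- The hypothesis of Q1 or that of Q2: `r_A(n) ≥ 1` for all large `n`, or `A` is infinite and
its `n`-th element is at most `C n ^ 2` for all `n ≥ 1`. -/
def BasisOrQuadratic (A : Set ℕ) : Prop :=
  (∃ n₀ : ℕ, ∀ n, n₀ ≤ n → 1 ≤ rep A n) ∨
    (A.Infinite ∧ ∃ C : ℕ, ∀ n, 1 ≤ n → Nat.nth (· ∈ A) (n - 1) ≤ C * n ^ 2)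

/-- **The Erdős–Turán conjecture for holonomic sequences.** -/
theorem result :
    -- 1. strictly increasing P-recursive sequences
    (∀ a : ℕ → ℕ, StrictMono a → PRecursive a → BasisOrQuadratic (Set.range a) →
      ∃ᶠ s : ℕ in atTop, E s ≤ rep (Set.range a) s) ∧
    -- 2. finite unions of P-recursive sequences with polynomial growth
    (∀ (m : ℕ) (a : Fin m → ℕ → ℕ), (∀ i, PRecursive (a i)) →
      (∀ i, ∃ C k : ℕ, ∀ n, a i n ≤ C * (n + 1) ^ k) → ∀ A : Set ℕ,
      (A \ ⋃ i, Set.range (a i)).Finite → ((⋃ i, Set.range (a i)) \ A).Finite →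
      BasisOrQuadratic A → ∃ᶠ s : ℕ in atTop, E s ≤ rep A s) ∧
    -- 3. sets near P-recursive sequences
    (∀ (m : ℕ) (a : Fin m → ℕ → ℕ), (∀ i, PRecursive (a i)) →
      (∀ i, ∃ C k : ℕ, ∀ n, n ^ 2 ≤ C * (a i n + 1) ∧ a i n ≤ C * (n + 1) ^ k) → ∀ A : Set ℕ,
      (∃ᶠ N : ℕ in atTop, Real.sqrt N ≤ E N * ({x : ℕ | x ∈ A ∧ x ≤ N ∧
        ∃ i n, |(x : ℝ) - a i n| ≤ E N}.ncard : ℝ)) →
      ∃ᶠ s : ℕ in atTop, E s ≤ rep A s) := by
  refine ⟨fun a hm ⟨d, N, P, hP, ha⟩ h => ?_, fun m a ha hg A h1 h2 h => ?_,
    fun m a ha hg A hA => ?_⟩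
  · exact Pool.Agent.V8H23.HoloET.increasing a hm
      (Pool.Agent.V8H23.Holo.prec_of_complex d N P hP ha) h
  · refine Pool.Agent.V8H23.HoloET.union a (fun i => ?_) hg A h1 h2 h
    obtain ⟨d, N, P, hP, hi⟩ := ha i
    exact Pool.Agent.V8H23.Holo.prec_of_complex d N P hP hi
  · refine Pool.Agent.V8H23.HoloET.near a (fun i => ?_) hg A hA
    obtain ⟨d, N, P, hP, hi⟩ := ha i
    exact Pool.Agent.V8H23.Holo.prec_of_complex d N P hP hi

end Pool.Agent.Results.MP_12a1af_nt.HolonomicSequences
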