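import Mathlib
import Pool.Agent.V8H23.BoxSharp

/-!
# MP_12a1af_nt: multifold sumsets and bounded representation functions

`rep A n` is the number `r_A(n)` of ordered pairs of elements of `A` with sum `n`, `cnt A x` is the
number of elements of `A` below `x`, and `sumset B` is the set `B 0 + ... + B d` of all the sums
`b 0 + ... + b d` with `b i ∈ B i`, where `B 0, ..., B d` are finite sets of integers.

1. If `r_A ≤ K < 2 ^ (d + 1)` and each `B i` has at least `m` elements then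
   `m ^ (1 / 2 ^ d) * |A ∩ (B 0 + ... + B d)| ≤ 2 |B 0| ... |B d|`.  The sums need not be direct, and
   the sumset is not assumed to be contained in `A`.
2. So if `a_n ≤ C n ^ 2` (or `A` is an asymptotic basis of order 2) and the elements of `A` below `x`
   are covered by sumsets `B j 0 + ... + B j d`, then `∑ j, ∏ i, |B j i| ≥ c m ^ (1 / 2 ^ d) √x`: if all
   the sets `B j i` are large then the covering is much more expensive than the covering of `A` by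
   single elements.
3. So Q1 and Q2 hold for every set `A` which has, for every `d`, economical coverings by sumsets of
   `d + 1` large sets, for instance with `∑ j, ∏ i, |B j i| ≤ C √x` and `min |B j i| → ∞`.
4. The condition `K < 2 ^ (d + 1)` cannot be weakened: for all `m` and `k` there is a set `A` with
   `r_A ≤ 2 ^ k` which is equal to a sumset of `k` sets with `m` elements each, and has `m ^ k` elements.
-/

set_option autoImplicit false

namespace Pool.Agent.Results.MP_12a1af_nt.MultifoldSumsets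

open Finset Filter

/-- `r_A(n)`: the number of ordered pairs of elements of `A` with sum `n` -/
noncomputable def rep (A : Set ℕ) (n : ℕ) : ℕ :=
  {p : ℕ × ℕ | p.1 ∈ A ∧ p.2 ∈ A ∧ p.1 + p.2 = n}.ncard

/-- the number of elements of `A` below `x` -/
noncomputable def cnt (A : Set ℕ) (x : ℕ) : ℕ := (A ∩ Set.Iio x).ncard

/-- the sumset `B 0 + ... + B d` -/
def sumset {d : ℕ} (B : Fin (d + 1) → Finset ℤ) : Set ℤ :=
  {z | ∃ b : Fin (d + 1) → ℤ, (∀ i, b i ∈ B i) ∧ ∑ i, b i = z}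

/-- the hypothesis of Q1 or that of Q2 (`a_n = Nat.nth (· ∈ A) (n - 1)`) -/
def Hyp (A : Set ℕ) : Prop := (∀ᶠ n : ℕ in atTop, 1 ≤ rep A n) ∨
  (A.Infinite ∧ ∃ C : ℝ, ∀ n : ℕ, 1 ≤ n → (Nat.nth (· ∈ A) (n - 1) : ℝ) ≤ C * (n : ℝ) ^ 2)

lemma mem_sumset_iff {d : ℕ} (B : Fin (d + 1) → Finset ℤ) (z : ℤ) :
    z ∈ sumset B ↔ z ∈ Pool.Agent.V8H23.Box.sumset B := by
  unfold sumset Pool.Agent.V8H23.Box.sumset
  rw [mem_image]
  simp only [Fintype.mem_piFinset, Set.mem_ofPred_eq]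

lemma ncard_eq {A : Set ℕ} {d : ℕ} (B : Fin (d + 1) → Finset ℤ) :
    {a : ℕ | a ∈ A ∧ (a : ℤ) ∈ sumset B}.ncard = (Pool.Agent.V8H23.Box.part A B).card := by
  classical
  have h1 : ((Pool.Agent.V8H23.Box.part A B : Finset ℤ) : Set ℤ) =
      (fun a : ℕ => (a : ℤ)) '' {a : ℕ | a ∈ A ∧ (a : ℤ) ∈ sumset B} := by
    ext z
    unfold Pool.Agent.V8H23.Box.part
    simp only [coe_filter, Set.mem_image, Set.mem_ofPred_eq]
    constructor
    · rintro ⟨h2, a, ha, rfl⟩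
      exact ⟨a, ⟨ha, (mem_sumset_iff B _).2 h2⟩, rfl⟩
    · rintro ⟨a, ⟨ha, h2⟩, rfl⟩
      exact ⟨(mem_sumset_iff B _).1 h2, a, ha, rfl⟩
  rw [← Set.ncard_coe_finset, h1, Set.ncard_image_of_injective _ Nat.cast_injective]

theorem result :
    -- 1. multifold sumsets contain few elements of `A`
    (∀ (A : Set ℕ) (K d : ℕ), (∀ n, rep A n ≤ K) → K < 2 ^ (d + 1) →
      ∀ (m : ℕ) (B : Fin (d + 1) → Finset ℤ), (∀ i, m ≤ (B i).card) →
        (m : ℝ) ^ ((1 : ℝ) / 2 ^ d) * ({a : ℕ | a ∈ A ∧ (a : ℤ) ∈ sumset B}.ncard : ℝ) ≤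
          2 * ∏ i, ((B i).card : ℝ)) ∧
    -- 2. coverings by multifold sumsets
    (∀ (A : Set ℕ), Hyp A → ∃ c : ℝ, 0 < c ∧ ∀ (K d : ℕ), (∀ n, rep A n ≤ K) → K < 2 ^ (d + 1) →
      ∀ᶠ x : ℕ in atTop, ∀ (J m : ℕ) (B : Fin J → Fin (d + 1) → Finset ℤ),
        (∀ j i, m ≤ (B j i).card) → (∀ a ∈ A, a < x → ∃ j, (a : ℤ) ∈ sumset (B j)) →
        c * (m : ℝ) ^ ((1 : ℝ) / 2 ^ d) * Real.sqrt x ≤ ∑ j, ∏ i, ((B j i).card : ℝ)) ∧
    -- 3. the two questions for sets with economical coverings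
    (∀ (A : Set ℕ), Hyp A →
      (∀ (d : ℕ) (T : ℝ), ∃ᶠ x : ℕ in atTop, ∃ (J m : ℕ) (B : Fin J → Fin (d + 1) → Finset ℤ),
        (∀ j i, m ≤ (B j i).card) ∧ (∀ a ∈ A, a < x → ∃ j, (a : ℤ) ∈ sumset (B j)) ∧
        T * ∑ j, ∏ i, ((B j i).card : ℝ) ≤ (m : ℝ) ^ ((1 : ℝ) / 2 ^ d) * Real.sqrt x) →
      ∀ K : ℕ, ∃ n, K < rep A n) ∧
    -- 4. sumsets of `k` sets with `r ≤ 2 ^ k`
    (∀ m k : ℕ, ∃ (A : Set ℕ) (B : Fin k → Finset ℕ), (∀ i, (B i).card = m) ∧
      A = {z | ∃ b : Fin k → ℕ, (∀ i, b i ∈ B i) ∧ ∑ i, b i = z} ∧ A.ncard = m ^ k ∧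
      ∀ n, rep A n ≤ 2 ^ k) := by
  refine ⟨?_, ?_, ?_, ?_⟩
  · intro A K d hK hd m B hm
    rw [ncard_eq]
    exact Pool.Agent.V8H23.Box.part_bound_real hK hd B m hm
  · intro A hA
    obtain ⟨c, hc, hg⟩ := Pool.Agent.V8H23.CloseET.grow_of_hyp hA
    refine ⟨Real.sqrt c / 2, by positivity, fun K d hK hd => ?_⟩
    filter_upwards [hg] with x hx J m B hm hcov
    have h1 := Pool.Agent.V8H23.Box.covering_bound hK hd x J m B hm
      (fun a ha hax => (hcov a ha hax).imp fun j hj => (mem_sumset_iff _ _).1 hj)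
    have h2 : Real.sqrt c * Real.sqrt x ≤ cnt A x := by
      rw [← Real.sqrt_mul hc.le]
      exact (Real.sqrt_le_sqrt hx).trans (le_of_eq (Real.sqrt_sq (Nat.cast_nonneg _)))
    have h3 := mul_le_mul_of_nonneg_left h2
      (show (0 : ℝ) ≤ (m : ℝ) ^ ((1 : ℝ) / 2 ^ d) by positivity)
    have h4 : (m : ℝ) ^ ((1 : ℝ) / 2 ^ d) * (cnt A x : ℝ) ≤ 2 * ∑ j, ∏ i, ((B j i).card : ℝ) := h1
    linarith
  · intro A hA h
    refine Pool.Agent.V8H23.Box.unbounded hA fun d T => (h d T).mono ?_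
    rintro x ⟨J, m, B, h1, h2, h3⟩
    exact ⟨J, m, B, h1, fun a ha hax => (h2 a ha hax).imp fun j hj => (mem_sumset_iff _ _).1 hj, h3⟩
  · intro m k
    obtain ⟨B, h1, h2, h3⟩ := Pool.Agent.V8H23.BoxSharp.sharp m k
    exact ⟨Pool.Agent.V8H23.BoxSharp.sums B, B, h1, rfl, h2, h3⟩

end Pool.Agent.Results.MP_12a1af_nt.MultifoldSumsets
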