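import Mathlib
import Pool.Agent.V8H23.RepSimple

/-!
# MP_12a1af_nt: sets whose representation functions are algebraic, automatic, periodic or P-recursive

`rep A n` is the number `r_A(n)` of ordered pairs `(a, b) ∈ A × A` with `a + b = n` and `repH A h n`
is the number `r_{A,h}(n)` of the `h`-tuples of elements of `A` with sum `n`.

The conjecture of Erdős and Turán is proved, with the lower bound `r_A(n) ≥ n ^ c` for infinitely
many `n`, for all sets `A` one of whose representation functions is simple in one of the following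
senses.

1. The power series `∑ r_{A,h}(n) X ^ n`, reduced modulo some prime `p`, is algebraic over the
   polynomials over `ZMod p`.
2. The sequence `r_{A,h}(n)` modulo some prime `p` is `p`-automatic (has a finite `p`-kernel).
3. The sequence `r_{A,h}(n)` modulo some prime `p`, where `h` is a power of `p`, is `k`-automatic for
   some `k ≥ 2` (which need not be related to `p`).  The case `p = h = 2`: the parity of `r_A(n)` is
   `k`-automatic.
4. The sequence `r_{A,h}(n)` is eventually periodic modulo some `m ≥ 2`.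
5. The sequence `r_{A,h}(n)`, where `h` is a prime power, is `k`-regular for some `k ≥ 2` (the
   additive group generated by its `k`-kernel is finitely generated).
6. The sequence `r_A(n)` satisfies a linear recurrence with polynomial coefficients.
-/

set_option autoImplicit false

namespace Pool.Agent.Results.MP_12a1af_nt.SimpleRepresentationFunctions

open Finset

/-- The number of ordered pairs of elements of `A` with sum `n`. -/
noncomputable def rep (A : Set ℕ) (n : ℕ) : ℕ :=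
  {p : ℕ × ℕ | p.1 ∈ A ∧ p.2 ∈ A ∧ p.1 + p.2 = n}.ncard

/-- The number of `h`-tuples of elements of `A` with sum `n`. -/
noncomputable def repH (A : Set ℕ) (h n : ℕ) : ℕ :=
  {v : Fin h → ℕ | (∀ i, v i ∈ A) ∧ ∑ i, v i = n}.ncard

/-- The `k`-kernel of a sequence `u`: the set of the sequences `u (k ^ e n + j)` with `j < k ^ e`. -/
def kernel {α : Type} (k : ℕ) (u : ℕ → α) : Set (ℕ → α) :=
  {v | ∃ e j : ℕ, j < k ^ e ∧ v = fun n => u (k ^ e * n + j)}

/-- The power series `∑ r_{A,h}(n) X ^ n` over `ZMod p` is algebraic. -/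
def AlgebraicModP (A : Set ℕ) : Prop :=
  ∃ p h : ℕ, p.Prime ∧ 1 ≤ h ∧
    IsAlgebraic (Polynomial (ZMod p)) (PowerSeries.mk fun n => (repH A h n : ZMod p))

/-- `r_{A,h}(n)` modulo the prime `p` is `p`-automatic. -/
def AutomaticModP (A : Set ℕ) : Prop :=
  ∃ p h : ℕ, p.Prime ∧ 1 ≤ h ∧ (kernel p (fun n => (repH A h n : ZMod p))).Finite

/-- `r_{A,h}(n)` modulo the prime `p` is `k`-automatic, where `h` is a power of `p`. -/
def AutomaticModPrimePower (A : Set ℕ) : Prop :=
  ∃ p j k : ℕ, p.Prime ∧ 2 ≤ k ∧ (kernel k (fun n => (repH A (p ^ j) n : ZMod p))).Finite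

/-- `r_{A,h}(n)` is eventually periodic modulo `m`. -/
def PeriodicModM (A : Set ℕ) : Prop :=
  ∃ m h t N : ℕ, 2 ≤ m ∧ 1 ≤ h ∧ 1 ≤ t ∧ ∀ n, N ≤ n → repH A h (n + t) ≡ repH A h n [MOD m]

/-- `r_{A,h}(n)` is `k`-regular, where `h` is a power of a prime. -/
def Regular (A : Set ℕ) : Prop :=
  ∃ p j k : ℕ, p.Prime ∧ 2 ≤ k ∧
    (Submodule.span ℤ (kernel k (fun n => (repH A (p ^ j) n : ℤ)))).FG

/-- `r_A(n)` satisfies a linear recurrence, the coefficients of which are polynomials in `n`. -/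
def PRecursive (A : Set ℕ) : Prop :=
  ∃ (d N : ℕ) (P : ℕ → Polynomial ℂ), (∃ i ≤ d, P i ≠ 0) ∧
    ∀ n, N ≤ n → ∑ i ∈ range (d + 1), (P i).eval (n : ℂ) * (rep A (n + i) : ℂ) = 0

/-- **The Erdős–Turán conjecture for sets with simple representation functions.** -/
theorem result (A : Set ℕ)
    (hA : AlgebraicModP A ∨ AutomaticModP A ∨ AutomaticModPrimePower A ∨ PeriodicModM A ∨
      Regular A ∨ PRecursive A) :
    ((∃ (C : ℝ) (k : ℕ), ∀ N : ℕ, ((A ∩ Set.Iic N).ncard : ℝ) ≤ C * Real.log (N + 2) ^ k) ∨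
      ∀ B : Set ℕ, A ⊆ B → ∃ c : ℝ, 0 < c ∧ ∀ N₀ : ℕ, ∃ n : ℕ, N₀ ≤ n ∧
        (n : ℝ) ^ c ≤ (rep B n : ℝ)) ∧
    ((∃ n₀ : ℕ, ∀ n, n₀ ≤ n → 1 ≤ rep A n) ∨
      (A.Infinite ∧ ∃ C : ℕ, ∀ n, 1 ≤ n → Nat.nth (· ∈ A) (n - 1) ≤ C * n ^ 2) →
      ∃ c : ℝ, 0 < c ∧ ∀ N₀ : ℕ, ∃ n : ℕ, N₀ ≤ n ∧ (n : ℝ) ^ c ≤ (rep A n : ℝ)) := by
  have hD : Pool.Agent.V8H23.RepSimple.Dich A := by
    rcases hA with ⟨p, h, hp, hh, hA⟩ | ⟨p, h, hp, hh, hA⟩ | ⟨p, j, k, hp, hk, hA⟩ |
      ⟨m, h, t, N, hm, hh, ht, hA⟩ | ⟨p, j, k, hp, hk, hA⟩ | ⟨d, N, P, hP, hA⟩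
    · have := Fact.mk hp
      exact Pool.Agent.V8H23.RepSimple.dich_of_algebraic (p := p) hh hA
    · have := Fact.mk hp
      exact Pool.Agent.V8H23.RepSimple.dich_of_automatic (p := p) hh hA
    · have := Fact.mk hp
      exact Pool.Agent.V8H23.RepSimple.dich_of_automatic' (p := p) (j := j) hk hA
    · exact Pool.Agent.V8H23.RepSimple.dich_of_periodic hm hh ht hA
    · have := Fact.mk hp
      exact Pool.Agent.V8H23.RepSimple.dich_of_automatic' (p := p) (j := j) hk
        (Pool.Agent.V8H23.RepSimple.kernel_finite_of_regular hA)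
    · exact Pool.Agent.V8H23.RepSimple.dich_of_precursive d N P hP hA
  refine ⟨hD, fun h => Pool.Agent.V8H23.RepSimple.many_of_dich hD ?_⟩
  rcases h with h | ⟨h, C, hC⟩
  · exact Pool.Agent.Results.MP_12a1af_nt.AffineSystems.growth_of_basis h
  · exact Pool.Agent.Results.MP_12a1af_nt.AffineSystems.growth_of_quadratic h hC

end Pool.Agent.Results.MP_12a1af_nt.SimpleRepresentationFunctions
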